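import Mathlib
import Pool.Agent.H694R2.SymCount

set_option autoImplicit false

/-!
# Symmetric refutations of the counting principle with `MOD_p` gates are exponentially long

`Count_q` on a set `A` whose size is not a multiple of `q` says that `A` cannot be partitioned into
blocks of `q` elements.  If `q` is not a power of `p` and the `p`-part of `q` divides `|A|`
(for instance, if `q` is prime to `p`), circuits with `MOD_p` gates, of any depth, which carry a
refutation of the principle by sequents of at most `b` nodes and are invariant under the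
permutations of `A` have exponentially many gates.

Definitions (beginning of `Pool/Agent/H694R2/SymMod.lean`):

* `Circuit p V 𝒢`: acyclic circuits over the variables `V` with gate set `𝒢`: negation gates,
  disjunction gates and `MOD_(p,a)` gates of unbounded fan-in, any depth, with sharing;
  `mult g c` is the number of times the node `c` is an input of `g`;
* `C.Symmetric A`: the circuit is invariant under the permutations of `A`, which act on the
  variables and on the gates;
* `Step`: one inference of the sequent calculus LK (unbounded `∨`; clauses used as rules) with the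
  rules for `MOD_p` gates: exactly one value, empty sum, adding one input, replacing simultaneously
  all inputs by equivalent ones (unboundedly many premises), and sums of sums;
* `Der C 𝒜 b Γ`: the sequent `Γ` has a (dag-like) derivation from the clauses `𝒜` by sequents of
  at most `b` nodes of `C`.

`countClauses A q` (`Pool/Agent/H694R2/SymCount.lean`) are the clauses of `Count_q` in the variables
`x_e`, `e` a `q`-element subset of `A`: every point of `A` lies in a block `e` with `x_e` true, and
two different blocks which meet are not both true.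

The case of `q` prime to `p` is `Pool.Agent.H694R2.SymCount.count_lower_bound` of the starting
repository.
-/

namespace Pool.Agent.Results.MP_c04246_lc.SymmetricCounting

open Equiv Pool.Agent.H694R2.SymMod Pool.Agent.H694R2.SymCount

/-- arithmetic: a multiple of a large power of `p` in the right residue class modulo `q` -/
theorem exists_amount' {p q k n : ℕ} (hp : p.Prime) (hk : 1 ≤ k) (hq : 1 ≤ q) (hqk : q ≤ 2 * k)
    (hdiv : p ^ q.factorization p ∣ n) (hn : 2 * p * q * k ≤ n) :
    ∃ x t e, 2 * k ≤ p ^ e ∧ x = t * p ^ e ∧ x ≤ 2 * p * q * k - 2 * p * k ∧ q ∣ n - x := by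
  set e := Nat.clog p (2 * k) with he
  have h1 : 2 * k ≤ p ^ e := Nat.le_pow_clog hp.one_lt _
  have h2 : p ^ e < p * (2 * k) := by
    have h3 := Nat.pow_pred_clog_lt_self hp.one_lt (x := 2 * k) (by omega)
    rw [← he] at h3
    have h4 : e ≠ 0 := by
      rw [he]
      exact (Nat.clog_pos hp.one_lt (by omega)).ne'
    have h5 : p ^ e = p * p ^ e.pred := by
      conv_lhs => rw [← Nat.succ_pred h4]
      rw [pow_succ]; ring
    rw [h5]
    exact Nat.mul_lt_mul_of_pos_left h3 hp.pos
  obtain ⟨s, hs⟩ : ∃ s, s = q.factorization p := ⟨_, rfl⟩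
  obtain ⟨q', hq'⟩ : ∃ q', q' = q / p ^ s := ⟨_, rfl⟩
  have hqq : p ^ s * q' = q := by
    rw [hq', hs]
    exact Nat.ordProj_mul_ordCompl_eq_self q p
  have hco0 : Nat.Coprime p q' := by
    rw [hq', hs]
    exact Nat.coprime_ordCompl hp (by omega)
  rw [← hs] at hdiv
  have hq'1 : 1 ≤ q' := by
    rcases Nat.eq_zero_or_pos q' with h | h
    · rw [h, mul_zero] at hqq; omega
    · exact h
  have hps : p ^ s ≤ q := by
    rw [← hqq]; exact Nat.le_mul_of_pos_right _ hq'1
  have hse : s ≤ e := (Nat.pow_le_pow_iff_right hp.one_lt).1 (by omega)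
  have hq'q : q' ≤ q := by
    rw [← hqq]; exact Nat.le_mul_of_pos_left _ (pow_pos hp.pos _)
  have hco : q'.Coprime (p ^ e) := (Nat.Coprime.pow_left e hco0).symm
  have hpe : p ^ e ≠ 0 := by omega
  obtain ⟨m1, m2⟩ := (Nat.chineseRemainder hco n 0).2
  have m3 := Nat.chineseRemainder_lt_mul hco n 0 (by omega) hpe
  set x : ℕ := (Nat.chineseRemainder hco n 0 : ℕ) with hx
  obtain ⟨t, ht⟩ := (Nat.modEq_zero_iff_dvd.1 m2)
  have htq : t < q' := by
    rw [ht, mul_comm] at m3
    exact Nat.lt_of_mul_lt_mul_right m3
  have hle : x ≤ 2 * p * q * k - 2 * p * k := by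
    have h6 : p ^ e * t ≤ (2 * p * k) * (q - 1) := by
      apply Nat.mul_le_mul
      · have : p * (2 * k) = 2 * p * k := by ring
        omega
      · omega
    have h7 : (2 * p * k) * (q - 1) = 2 * p * q * k - 2 * p * k := by
      rw [Nat.mul_sub, mul_one]
      congr 1; ring
    rw [ht]; omega
  have hxn : x ≤ n := by omega
  refine ⟨x, t, e, h1, by rw [ht, mul_comm], hle, ?_⟩
  rw [← hqq]
  refine Nat.Coprime.mul_dvd_of_dvd_of_dvd (Nat.Coprime.pow_left s hco0) ?_ ?_
  · refine Nat.dvd_sub hdiv ?_
    rw [ht]
    exact (pow_dvd_pow p hse).mul_right t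
  · exact (Nat.modEq_iff_dvd' hxn).1 m1

/-- Let `p` be a prime and `q ≥ 1`, and suppose that the largest power of `p` which divides `q`
divides `|A|`. If a circuit with `MOD_p` gates that is invariant under the permutations of `A`
carries a refutation of the counting principle `Count_q` on `A` with sequents of at most `b` nodes,
then it has at least `((|A| choose k) / 4)^(1/3)` gates whenever `2 q ≤ k`, `2 ≤ k` and
`(2 p q + b) k ≤ |A|`. -/
theorem result {A 𝒢 : Type} [Fintype A] [DecidableEq A] [Fintype 𝒢] [DecidableEq 𝒢]
    [MulAction (Perm A) 𝒢] (p q b k : ℕ) [Fact p.Prime]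
    [DecidableEq (Set.powersetCard A q)] [Fintype (Set.powersetCard A q)]
    (hq : 1 ≤ q) (hb : 2 ≤ b) (hk : 2 ≤ k) (hqk : 2 * q ≤ k)
    (hdiv : p ^ q.factorization p ∣ Fintype.card A)
    (hn : (2 * p * q + b) * k ≤ Fintype.card A)
    (C : Circuit p (Set.powersetCard A q) 𝒢) (hC : C.Symmetric A)
    (hD : Der C (countClauses A q) b ∅) :
    (Fintype.card A).choose k ≤ 4 * (Fintype.card 𝒢) ^ 3 := by
  have hp : p.Prime := Fact.out
  have hp2 := hp.two_le
  have e1 : (2 * p * q + b) * k = 2 * p * q * k + b * k := by ring
  obtain ⟨x, t, e, h1, h2, h3, h4⟩ := exists_amount' (n := Fintype.card A) hp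
    (by omega : 1 ≤ k) hq (by omega) hdiv (by omega)
  have e2 : k ≤ 2 * p * k := Nat.le_mul_of_pos_left k (by omega)
  have e3 : 2 * p * k ≤ 2 * p * q * k := by
    rw [mul_assoc, mul_assoc (2 * p)]
    calc 2 * (p * k) = 2 * p * k := by ring
      _ ≤ 2 * p * (q * k) := Nat.mul_le_mul_left _ (Nat.le_mul_of_pos_left k (by omega))
  have e4 : (b + 3) * k = b * k + 3 * k := by ring
  have e5 : 4 * k ≤ 2 * p * k := Nat.mul_le_mul_right _ (by omega)
  have hN := near_count (A := A) (q := q) (x := x) (k := k) (p := p) (t := t) (e := e) hqk hk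
    (by omega) h1 h2 (by omega) h4 hq
  exact lower_bound hC hN (by omega) hk hb hD

end Pool.Agent.Results.MP_c04246_lc.SymmetricCounting
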